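import Mathlib

/-!
# The Korenblum extremal function does not increase with `p`

For `(f, g)` admissible for `p` the pair `(f ^ m, g ^ m)` is admissible for `p / m` and has the same
value, so `F_{p/m}(c) ≥ F_p(c)` for all `c`, all `p > 0` and all integers `m ≥ 1`; and `κ_p < 1` for
all `p`.  Therefore the inequality `F_{p₁}(c) < F_{p₂}(c)` of Q1 fails for all pairs `p₁ = p₂ / m`,
`m ≥ 2`, at every single `c` of the (nonempty) interval `(max (κ_{p₁}, κ_{p₂}), 1)`.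
-/

set_option autoImplicit false

open MeasureTheory Metric Set

namespace Pool.Agent.Results.MP_ce4856_an.PowerTrick

/-- `‖f‖_p ^ p = (1/π) ∫_𝔻 |f|^p dA` -/
noncomputable def normPow (p : ℝ) (f : ℂ → ℂ) : ℝ :=
  (1 / Real.pi) * ∫ z in ball (0 : ℂ) 1, ‖f z‖ ^ p

/-- `‖f‖_p` -/
noncomputable def norm (p : ℝ) (f : ℂ → ℂ) : ℝ := normPow p f ^ (1 / p)

/-- the space `𝒜^p(𝔻)` of the analytic functions on the unit disc with `‖f‖_p < ∞` -/
def Space (p : ℝ) : Set (ℂ → ℂ) :=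
  {f | AnalyticOnNhd ℂ f (ball 0 1) ∧ IntegrableOn (fun z => ‖f z‖ ^ p) (ball (0 : ℂ) 1)}

/-- the property in the definition of `κ_p` -/
def Dominates (p c : ℝ) : Prop :=
  ∀ f ∈ Space p, ∀ g ∈ Space p, (∀ z : ℂ, c < ‖z‖ → ‖z‖ < 1 → ‖f z‖ ≤ ‖g z‖) → norm p f ≤ norm p g

/-- `κ_p` (the supremum of the empty set of real numbers is `0` in Mathlib) -/
noncomputable def kappa (p : ℝ) : ℝ := sSup {c : ℝ | 0 < c ∧ c < 1 ∧ Dominates p c}

/-- the set `FG_p(c)` -/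
def Pairs (p c : ℝ) : Set ((ℂ → ℂ) × (ℂ → ℂ)) :=
  {x | x.1 ∈ Space p ∧ x.2 ∈ Space p ∧ norm p x.1 ≤ 1 ∧ norm p x.2 ≤ 1 ∧
    ∀ z : ℂ, c ≤ ‖z‖ → ‖z‖ < 1 → ‖x.1 z‖ ≤ ‖x.2 z‖}

/-- `F_p(c)` -/
noncomputable def F (p c : ℝ) : ℝ :=
  sSup ((fun x : (ℂ → ℂ) × (ℂ → ℂ) => norm p x.1 ^ p - norm p x.2 ^ p) '' Pairs p c)

lemma normPow_nonneg (p : ℝ) (f : ℂ → ℂ) : 0 ≤ normPow p f := by
  unfold normPow
  have : 0 ≤ ∫ z in ball (0 : ℂ) 1, ‖f z‖ ^ p :=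
    integral_nonneg fun z => Real.rpow_nonneg (norm_nonneg _) _
  positivity

lemma norm_nn (p : ℝ) (f : ℂ → ℂ) : 0 ≤ norm p f := Real.rpow_nonneg (normPow_nonneg p f) _

lemma norm_rpow {p : ℝ} (hp : 0 < p) (f : ℂ → ℂ) : norm p f ^ p = normPow p f := by
  unfold norm
  rw [← Real.rpow_mul (normPow_nonneg p f), one_div, inv_mul_cancel₀ hp.ne', Real.rpow_one]

lemma norm_le_one {p : ℝ} (hp : 0 < p) (f : ℂ → ℂ) : norm p f ≤ 1 ↔ normPow p f ≤ 1 := by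
  rw [← norm_rpow hp f]
  constructor
  · intro h
    exact Real.rpow_le_one (norm_nn p f) h hp.le
  · intro h
    by_contra h1
    push Not at h1
    have := Real.one_lt_rpow h1 hp
    linarith

lemma norm_le_norm {p : ℝ} (hp : 0 < p) (f g : ℂ → ℂ) :
    norm p f ≤ norm p g ↔ normPow p f ≤ normPow p g := by
  unfold norm
  exact Real.rpow_le_rpow_iff (normPow_nonneg p f) (normPow_nonneg p g) (by positivity)

lemma pow_eq {p : ℝ} {m : ℕ} (hm : 1 ≤ m) (f : ℂ → ℂ) (z : ℂ) :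
    ‖(fun z => f z ^ m) z‖ ^ (p / m) = ‖f z‖ ^ p := by
  have hm0 : (m : ℝ) ≠ 0 := by positivity
  show ‖f z ^ m‖ ^ (p / m) = _
  rw [norm_pow, ← Real.rpow_natCast, ← Real.rpow_mul (norm_nonneg _), mul_div_cancel₀ _ hm0]

lemma normPow_pow {p : ℝ} {m : ℕ} (hm : 1 ≤ m) (f : ℂ → ℂ) :
    normPow (p / m) (fun z => f z ^ m) = normPow p f := by
  unfold normPow
  simp_rw [pow_eq hm]

lemma mem_pow {p : ℝ} {m : ℕ} (hm : 1 ≤ m) {f : ℂ → ℂ} (hf : f ∈ Space p) :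
    (fun z => f z ^ m) ∈ Space (p / m) := by
  refine ⟨fun z hz => (hf.1 z hz).pow m, ?_⟩
  have := hf.2
  simp_rw [pow_eq hm]
  exact this

lemma pairs_pow {p c : ℝ} (hp : 0 < p) {m : ℕ} (hm : 1 ≤ m) {x : (ℂ → ℂ) × (ℂ → ℂ)}
    (hx : x ∈ Pairs p c) : ((fun z => x.1 z ^ m), (fun z => x.2 z ^ m)) ∈ Pairs (p / m) c := by
  obtain ⟨h1, h2, h3, h4, h5⟩ := hx
  have hpm : 0 < p / m := by positivity
  refine ⟨mem_pow hm h1, mem_pow hm h2, ?_, ?_, fun z hz hz1 => ?_⟩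
  · rw [norm_le_one hpm, normPow_pow hm, ← norm_le_one hp]
    exact h3
  · rw [norm_le_one hpm, normPow_pow hm, ← norm_le_one hp]
    exact h4
  · show ‖x.1 z ^ m‖ ≤ ‖x.2 z ^ m‖
    rw [norm_pow, norm_pow]
    exact pow_le_pow_left₀ (norm_nonneg _) (h5 z hz hz1) m

lemma zero_mem (p c : ℝ) (hp : 0 < p) : ((fun _ => 0), (fun _ => 0)) ∈ Pairs p c := by
  have h0 : (fun _ => (0 : ℂ)) ∈ Space p := by
    refine ⟨analyticOnNhd_const, ?_⟩
    have : (fun z : ℂ => ‖(0 : ℂ)‖ ^ p) = fun _ => 0 := by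
      funext z
      rw [norm_zero, Real.zero_rpow hp.ne']
    rw [this]
    exact integrableOn_zero
  have h1 : norm p (fun _ => (0 : ℂ)) ≤ 1 := by
    rw [norm_le_one hp]
    unfold normPow
    simp only [norm_zero, Real.zero_rpow hp.ne', integral_zero, mul_zero]
    exact zero_le_one
  exact ⟨h0, h0, h1, h1, fun z _ _ => le_rfl⟩

lemma bdd (p c : ℝ) (hp : 0 < p) :
    BddAbove ((fun x : (ℂ → ℂ) × (ℂ → ℂ) => norm p x.1 ^ p - norm p x.2 ^ p) '' Pairs p c) := by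
  refine ⟨1, ?_⟩
  rintro _ ⟨x, hx, rfl⟩
  have h1 := Real.rpow_le_one (norm_nn p x.1) hx.2.2.1 hp.le
  have h2 := Real.rpow_nonneg (norm_nn p x.2) p
  show norm p x.1 ^ p - norm p x.2 ^ p ≤ 1
  linarith

/-- `F_p(c) ≤ F_{p/m}(c)` -/
theorem F_le (p c : ℝ) (hp : 0 < p) {m : ℕ} (hm : 1 ≤ m) : F p c ≤ F (p / m) c := by
  have hpm : 0 < p / m := by positivity
  refine csSup_le ⟨_, _, zero_mem p c hp, rfl⟩ ?_
  rintro _ ⟨x, hx, rfl⟩
  refine le_csSup (bdd (p / m) c hpm) ⟨_, pairs_pow hp hm hx, ?_⟩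
  show norm (p / m) (fun z => x.1 z ^ m) ^ (p / m) - norm (p / m) (fun z => x.2 z ^ m) ^ (p / m) =
    norm p x.1 ^ p - norm p x.2 ^ p
  rw [norm_rpow hpm, norm_rpow hpm, norm_rpow hp, norm_rpow hp, normPow_pow hm, normPow_pow hm]

lemma Dominates.pow {p c : ℝ} (hp : 0 < p) {m : ℕ} (hm : 1 ≤ m) (h : Dominates (p / m) c) :
    Dominates p c := by
  intro f hf g hg hfg
  have hpm : 0 < p / m := by positivity
  have h1 := h _ (mem_pow hm hf) _ (mem_pow hm hg) (fun z hz hz1 => by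
    show ‖f z ^ m‖ ≤ ‖g z ^ m‖
    rw [norm_pow, norm_pow]
    exact pow_le_pow_left₀ (norm_nonneg _) (hfg z hz hz1) m)
  rw [norm_le_norm hpm, normPow_pow hm, normPow_pow hm, ← norm_le_norm hp] at h1
  exact h1

lemma set_bdd (p : ℝ) : BddAbove {c : ℝ | 0 < c ∧ c < 1 ∧ Dominates p c} :=
  ⟨1, fun _ hc => hc.2.1.le⟩

lemma kappa_nonneg (p : ℝ) : 0 ≤ kappa p := Real.sSup_nonneg fun _ hc => hc.1.le

/-- `κ_{p/m} ≤ κ_p` -/
theorem kappa_le (p : ℝ) (hp : 0 < p) {m : ℕ} (hm : 1 ≤ m) : kappa (p / m) ≤ kappa p := by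
  refine Real.sSup_le (fun c hc => ?_) (kappa_nonneg p)
  exact le_csSup (set_bdd p) ⟨hc.1, hc.2.1, hc.2.2.pow hp hm⟩

lemma vol_ball : (volume : Measure ℂ).real (ball (0 : ℂ) 1) = Real.pi := by
  rw [measureReal_def, Complex.volume_ball]
  simp

lemma normPow_const {p a : ℝ} (ha : 0 ≤ a) : normPow p (fun _ => (a : ℂ)) = a ^ p := by
  unfold normPow
  rw [setIntegral_const, vol_ball, Complex.norm_real, Real.norm_of_nonneg ha, smul_eq_mul]
  field_simp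

lemma const_mem (p a : ℝ) : (fun _ => (a : ℂ)) ∈ Space p :=
  ⟨analyticOnNhd_const, integrableOn_const (by
    rw [Complex.volume_ball]
    exact (ENNReal.mul_lt_top (by simp) (by simp)).ne)⟩

lemma id_mem {p : ℝ} (hp : 0 < p) : (fun z : ℂ => z) ∈ Space p := by
  refine ⟨analyticOnNhd_id, ?_⟩
  have hc : Continuous fun z : ℂ => ‖z‖ ^ p := continuous_norm.rpow_const fun _ => Or.inr hp.le
  exact (hc.continuousOn.integrableOn_compact (isCompact_closedBall (0 : ℂ) 1)).mono_set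
    ball_subset_closedBall

lemma normPow_id {p : ℝ} (hp : 0 < p) : normPow p (fun z : ℂ => z) < 1 := by
  unfold normPow
  have h1 : IntegrableOn (fun z : ℂ => ‖z‖ ^ p) (ball 0 1) := (id_mem hp).2
  have h2 : IntegrableOn (fun _ : ℂ => (1 : ℝ)) (ball 0 1) := integrableOn_const (by
    rw [Complex.volume_ball]
    exact (ENNReal.mul_lt_top (by simp) (by simp)).ne)
  have h3 : 0 < ∫ z in ball (0 : ℂ) 1, ((1 : ℝ) - ‖z‖ ^ p) := by
    rw [setIntegral_pos_iff_support_of_nonneg_ae]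
    · have e : Function.support (fun z : ℂ => (1 : ℝ) - ‖z‖ ^ p) ∩ ball 0 1 = ball 0 1 := by
        refine inter_eq_right.2 fun z hz => ?_
        have hz1 : ‖z‖ < 1 := mem_ball_zero_iff.1 hz
        have := Real.rpow_lt_one (norm_nonneg z) hz1 hp
        rw [Function.mem_support]
        linarith
      rw [e]
      exact measure_ball_pos volume 0 one_pos
    · refine (ae_restrict_iff' measurableSet_ball).2 (Filter.Eventually.of_forall fun z hz => ?_)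
      have hz1 : ‖z‖ < 1 := mem_ball_zero_iff.1 hz
      have := Real.rpow_lt_one (norm_nonneg z) hz1 hp
      show (0 : ℝ) ≤ 1 - ‖z‖ ^ p
      linarith
    · exact h2.sub h1
  rw [integral_sub h2 h1, setIntegral_const, vol_ball, smul_eq_mul, mul_one] at h3
  have h4 : (1 / Real.pi) * ∫ z in ball (0 : ℂ) 1, ‖z‖ ^ p < (1 / Real.pi) * Real.pi :=
    mul_lt_mul_of_pos_left (by linarith) (by positivity)
  have h5 : (1 / Real.pi) * Real.pi = 1 := by field_simp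
  rw [h5] at h4
  exact h4

/-- `κ_p < 1` -/
theorem kappa_lt_one {p : ℝ} (hp : 0 < p) : kappa p < 1 := by
  obtain ⟨v, hv⟩ : ∃ v : ℝ, v = normPow p (fun z : ℂ => z) := ⟨_, rfl⟩
  have hv1 : v < 1 := by rw [hv]; exact normPow_id hp
  have hv0 : 0 ≤ v := by rw [hv]; exact normPow_nonneg _ _
  obtain ⟨a, ha⟩ : ∃ a : ℝ, a = ((1 + v) / 2) ^ (1 / p) := ⟨_, rfl⟩
  have ha0 : 0 ≤ a := by rw [ha]; positivity
  have ha1 : a < 1 := by
    rw [ha]
    exact Real.rpow_lt_one (by linarith) (by linarith) (by positivity)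
  have hap : a ^ p = (1 + v) / 2 := by
    rw [ha, ← Real.rpow_mul (by linarith), one_div, inv_mul_cancel₀ hp.ne', Real.rpow_one]
  refine lt_of_le_of_lt (Real.sSup_le (fun c hc => ?_) ha0) ha1
  by_contra hca
  push Not at hca
  have h1 := hc.2.2 _ (const_mem p a) _ (id_mem hp) (fun z hz _ => by
    show ‖(a : ℂ)‖ ≤ ‖z‖
    rw [Complex.norm_real, Real.norm_of_nonneg ha0]
    linarith)
  rw [norm_le_norm hp, normPow_const ha0, hap, ← hv] at h1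
  linarith

/-- **The answer to Q1 is no**, for all pairs `p₁ = p₂ / m` and at every `c`. -/
theorem result :
    (∀ p : ℝ, 0 < p → ∀ m : ℕ, 1 ≤ m → kappa (p / m) ≤ kappa p ∧ ∀ c : ℝ, F p c ≤ F (p / m) c) ∧
    (∀ p₂ : ℝ, 0 < p₂ → ∀ m : ℕ, 2 ≤ m → 0 < p₂ / m ∧ p₂ / m < p₂ ∧
      (Ioo (max (kappa (p₂ / m)) (kappa p₂)) 1).Nonempty ∧
      ∀ c ∈ Ioo (max (kappa (p₂ / m)) (kappa p₂)) 1, F p₂ c ≤ F (p₂ / m) c) ∧
    ¬ ∀ p₁ p₂ : ℝ, 0 < p₁ → p₁ < p₂ → ∀ c ∈ Ioo (max (kappa p₁) (kappa p₂)) 1, F p₁ c < F p₂ c := by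
  have h1 : ∀ p₂ : ℝ, 0 < p₂ → ∀ m : ℕ, 2 ≤ m → 0 < p₂ / m ∧ p₂ / m < p₂ ∧
      (Ioo (max (kappa (p₂ / m)) (kappa p₂)) 1).Nonempty ∧
      ∀ c ∈ Ioo (max (kappa (p₂ / m)) (kappa p₂)) 1, F p₂ c ≤ F (p₂ / m) c := by
    intro p₂ hp m hm
    have hm1 : (1 : ℝ) < m := by exact_mod_cast hm
    have hpm : 0 < p₂ / m := by positivity
    refine ⟨hpm, div_lt_self hp hm1, ?_, fun c _ => F_le p₂ c hp (by omega)⟩
    rw [nonempty_Ioo]
    exact max_lt (kappa_lt_one hpm) (kappa_lt_one hp)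
  refine ⟨fun p hp m hm => ⟨kappa_le p hp hm, fun c => F_le p c hp hm⟩, h1, fun h => ?_⟩
  obtain ⟨h2, h3, ⟨c, hc⟩, h4⟩ := h1 2 two_pos 2 le_rfl
  exact absurd (h _ _ h2 h3 c hc) (not_lt.2 (h4 c hc))

end Pool.Agent.Results.MP_ce4856_an.PowerTrick
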